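import Pool.Agent.H39.Pole.Main

/-!
# The analytic Tate conjecture: torus actions, few monomials, finitely many varieties

Let `k` be a finitely generated perfect field. For a smooth projective variety `X` over `k` and `j ≥ 0`
consider the function `u ↦ u^(rank A^j(X)) L(j + dim_a(k) + u)`, `u > 0`, where `L` is the L-function of
`H^(2j)(X)`, in the group of the functions modulo those with a finite nonzero limit as `u → 0`. The
conjecture for `X` and `j`, including the existence of the order, says that its class `δ(X)(j)` is
trivial. No continuation of the L-functions is assumed. The Laurent polynomials `∑ δ(X)(j) L^j` are
compatible with blow-ups; so they extend to an additive invariant of all separated schemes of finite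
type (Bittner in characteristic zero; Gillet and Soulé for finite fields, since `δ` is defined on the
Chow motives). This is the hypothesis `IsDefect`.

Let `X` be a closed subscheme of an affine space which is stable under a torus acting diagonally. It is
of complexity at most `n` if each stratum of `X` (given by the vanishing and non-vanishing of the
coordinates) has dimension at most `n` plus the dimension of the orbits of the torus in the stratum.
There is no restriction on the dimension and on the singularities of `X`. Let `𝓑_n` be the smallest
class of schemes which contains them and which contains each one of `X`, `Z`, `U` with the other two, for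
the closed subschemes `Z` of separated schemes `X` of finite type with complement `U` (`Built n`).

**Theorem.** Let `Q` be a class of smooth proper irreducible schemes over `k` (for example all smooth
projective varieties, not necessarily geometrically irreducible).

1. Let `n` be such that the varieties of dimension at most `n` have models in `Q`. For every `X` in
   `𝓑_n`, of arbitrary dimension, there is a finite list of varieties `Y` of the class `Q` of dimension at
   most `n`, which depends only on `X`, `Q` and `n` (not on `ℓ`), such that the conjecture for the `Y`
   implies `δ(X) = 0`, and it implies the conjecture for `X` if `X` is in the class `Q`. The conjecture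
   in dimension at most `n` is equivalent to `δ = 0` on `𝓑_n`, and to `δ = 0` for all separated schemes
   of finite type of dimension at most `n`.
2. (unconditional in the conjecture) Let the curves over `k` have models in `Q`. The conjecture is true
   for all `X` of the class `Q`, of arbitrary dimension, which belong to `𝓑_1`, and `δ = 0` on `𝓑_1`. Only
   the trivial part of the conjecture is used: the degrees `j = 0` and `j ≥ dim X`.
3. The class `𝓑_n` contains the schemes given by `c` linearly independent equations which have together
   at most `c + n + 1` monomials, and by any number of additional equations with at most two terms, in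
   an affine space of arbitrary dimension (`Sparse n`), and the inverse images of the cones of dimension
   at most `n + 1` under all monomial maps between affine spaces, also with additional equations with at
   most two terms (`Cones n`). (This is known from earlier work.)

So the analytic Tate conjecture holds, for all finitely generated fields of characteristic zero and all
finite fields, for the smooth projective varieties of arbitrary dimension which have a decomposition into
locally closed pieces each of which is given by `c` independent equations with together at most `c + 2`
monomials and arbitrary equations with two terms, with varying `c`, in all degrees `j`; and it follows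
for the varieties cut into systems with at most `c + 3` monomials from the conjecture for divisors on
finitely many surfaces.
-/

set_option autoImplicit false

open CategoryTheory AlgebraicGeometry Pool.Agent.Y116.UV Pool.Agent.H89.Dev Pool.Agent.H39.Bei
  Pool.Agent.H39.Pole Pool.Agent.W5h38.TV Pool.Agent.W5h68.SP

universe w

namespace Pool.Agent.Results.MP_223b32_ag.FewMonomials

/-- **The analytic Tate conjecture, torus actions of complexity at most `n` and equations with few
monomials.** See the explanations above. -/
theorem result (k : Type) [Field k] [PerfectField k] (Q : Sch k → Prop) (hQ : IsClass Q) :
    (∀ n : ℕ, ModelsIn Q n →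
      (∀ X : Sch k, Built n X → ∃ 𝒴 : List (Sch k),
        (∀ Y ∈ 𝒴, Q Y ∧ topologicalKrullDim Y.left ≤ n) ∧
        ∀ (D : PoleData.{w} k) (δ : Sch k → ℤ → Growth), D.IsDefect Q δ →
          (∀ Y ∈ 𝒴, D.Holds Y) → Zero δ X ∧ (Q X → D.Holds X)) ∧
      ∀ (D : PoleData.{w} k) (δ : Sch k → ℤ → Growth), D.IsDefect Q δ →
        (ForClass Q D.Holds n ↔ ∀ X : Sch k, Built n X → Zero δ X) ∧
        (ForClass Q D.Holds n ↔
          ∀ X : Sch k, FT True X → topologicalKrullDim X.left ≤ n → Zero δ X)) ∧
    (ModelsIn Q 1 → ∀ (D : PoleData.{w} k) (δ : Sch k → ℤ → Growth), D.IsDefect Q δ → D.Ends Q →
      (∀ X : Sch k, Q X → Built 1 X → D.Holds X) ∧ ∀ X : Sch k, Built 1 X → Zero δ X) ∧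
    (∀ n : ℕ, Sparse (k := k) n (Built n) ∧ Cones (k := k) n (Built n)) := by
  refine ⟨fun n hM => ⟨fun X hX => fin_built hQ hM X hX, fun D δ hδ => class_iff_all hδ hQ hM⟩,
    fun hM D δ hδ hD => ?_, fun n => ⟨fun N c t f S b hf hS hc hb =>
      sparse_built n N c t f S b hf hS hc hb,
    fun m N r t g α b hg hd hb => cones_built n m N r t g α b hg hd hb⟩⟩
  have h := (class_iff_all hδ hQ hM).1.mp (pole_low hQ hD)
  exact ⟨fun X hX hB => (pole_iff hδ hX).mpr (h X hB), h⟩

end Pool.Agent.Results.MP_223b32_ag.FewMonomials
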