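import Pool.Agent.H39.Bei.Main

/-!
# Beilinson's conjecture on central values: torus actions, few monomials, finitely many varieties

For a smooth projective variety `X` over `ℚ` and `m ≥ 1` let `δ(X)(m) ∈ ℤ × ℂˣ / ℚˣ` be the pair of the
difference between the order of `L(H^(2m-1)(X), s)` at `s = m` and the dimension of `CH^m(X)⁰ ⊗ ℚ`, and
of the quotient of the leading coefficient by `det Π · det ⟨ , ⟩` modulo `ℚˣ`. The parts (iii) and (iv)
of the conjecture for `X` say that `δ(X) = 0`. The invariant `δ` is compatible with blow-ups; so it
extends, by the theorem of Bittner, to an additive invariant of all separated schemes of finite type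
over `ℚ` (this is the hypothesis `IsDefect`): `δ(X) = δ(Z) + δ(U)` for a closed subscheme `Z` of `X` and
its complement `U`, and `δ(E) = L ^ r δ(X)` for the affine bundles `E → X` of rank `r`.

Let `X` be a closed subscheme of an affine space which is stable under a torus acting diagonally. It is
of complexity at most `n` if each stratum of `X` (given by the vanishing and non-vanishing of the
coordinates) has dimension at most `n` plus the dimension of the orbits of the torus in the stratum.
There is no restriction on the dimension and on the singularities of `X`. Let `𝓑_n` be the smallest
class of schemes which contains them and which contains each one of `X`, `Z`, `U` with the other two, for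
the closed subschemes `Z` of separated schemes `X` of finite type with complement `U` (`Built n`).

**Theorem.** Let `Q` be a class of smooth proper irreducible schemes over `ℚ` (for example all smooth
projective varieties) and let `n` be such that the varieties of dimension at most `n` have models in
`Q` (for the class of all smooth projective varieties this is the theorem of Hironaka).

1. For every `X` in `𝓑_n`, of arbitrary dimension, there is a finite list of varieties `Y` of the
   class `Q` of dimension at most `n`, which depends only on `X`, `Q` and `n`, such that the parts (iii)
   and (iv) of the conjecture for the varieties `Y` imply `δ(X) = 0`, and they imply the parts (iii)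
   and (iv) for `X` if `X` is in the class `Q`.
2. The parts (iii) and (iv) of the conjecture for all varieties of dimension at most `n` of the class
   are equivalent to `δ = 0` on `𝓑_n`, and to `δ = 0` for all separated schemes of finite type of
   dimension at most `n`.
3. The class `𝓑_n` contains the schemes given by `c` linearly independent equations which have together
   at most `c + n + 1` monomials, and by any number of additional equations with at most two terms, in
   an affine space of arbitrary dimension (`Sparse n`), and the inverse images of the cones of dimension
   at most `n + 1` under all monomial maps between affine spaces, also with additional equations with at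
   most two terms (`Cones n`). (This is known from earlier work.)

For `n = 1` the varieties `Y` are curves over number fields and points, and the conjecture for them is
the conjecture of Birch and Swinnerton-Dyer for the Jacobians up to rational factors: it implies the
parts (iii) and (iv) of Beilinson's conjecture for all smooth projective varieties, of arbitrary
dimension, which have a decomposition into locally closed pieces given by `c` independent equations with
together at most `c + 2` monomials and arbitrary equations with two terms, and for one such variety
finitely many Jacobians are enough.
-/

set_option autoImplicit false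

open CategoryTheory AlgebraicGeometry Pool.Agent.Y116.UV Pool.Agent.H89.Dev Pool.Agent.H39.Bei
  Pool.Agent.W5h38.TV Pool.Agent.W5h68.SP

universe w

namespace Pool.Agent.Results.MP_29b22a_nt.FewMonomials

/-- **Central values, torus actions of complexity at most `n` and equations with few monomials.** See
the explanations above. -/
theorem result (Q : Sch ℚ → Prop) (hQ : IsClass Q) (n : ℕ) (hM : ModelsIn Q n) :
    (∀ X : Sch ℚ, Built n X → ∃ 𝒴 : List (Sch ℚ),
      (∀ Y ∈ 𝒴, Q Y ∧ topologicalKrullDim Y.left ≤ n) ∧
      ∀ (D : CentralData.{w}) (δ : Sch ℚ → ℤ → ℤ × Additive Ratio), D.IsDefect Q δ →
        (∀ Y ∈ 𝒴, D.Beilinson Y) → Zero δ X ∧ (Q X → D.Beilinson X)) ∧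
    (∀ (D : CentralData.{w}) (δ : Sch ℚ → ℤ → ℤ × Additive Ratio), D.IsDefect Q δ →
      (ForClass Q D.Beilinson n ↔ ∀ X : Sch ℚ, Built n X → Zero δ X) ∧
      (ForClass Q D.Beilinson n ↔
        ∀ X : Sch ℚ, FT True X → topologicalKrullDim X.left ≤ n → Zero δ X)) ∧
    (Sparse (k := ℚ) n (Built n) ∧ Cones (k := ℚ) n (Built n)) := by
  refine ⟨fun X hX => ?_, fun D δ hδ => class_iff_all hδ hQ hM,
    fun N c t f S b hf hS hc hb => sparse_built n N c t f S b hf hS hc hb,
    fun m N r t g α b hg hd hb => cones_built n m N r t g α b hg hd hb⟩
  obtain ⟨𝒴, h1, h2⟩ := fin_built.{w} hQ hM X hX
  exact ⟨𝒴, h1, fun D δ hδ h3 => ⟨h2 D δ hδ h3, fun hQX => (beilinson_iff hδ hQX).mpr (h2 D δ hδ h3)⟩⟩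

end Pool.Agent.Results.MP_29b22a_nt.FewMonomials
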